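import Pool.Agent.H518.NC.Dom
import Pool.Agent.H518.NC.Inf

/-!
# Tame representations of rank two over arbitrary Noetherian local rings: most tuples of primes

Let `k ≥ 0` and `δ > 0`. For all sufficiently large primes `p` the following holds. For all primes `q₁ ≡ 1 mod p` but a proportion
of at most `δ`, for all primes `q₂ ≡ 1 mod p` but a proportion of at most `δ` (which may depend on `q₁`), …, for all primes
`q_k ≡ 1 mod p` but a proportion of at most `δ`, the set `T = {q₁, …, q_k}` has the following property.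

Let `S` be a finite set of primes of `ℚ` (primes above `p` are allowed) whose members congruent to `1` modulo `p` are in `T`, and let
`A` be any Noetherian local ring with finite residue field of characteristic `p`, with its adic topology, for example any
coefficient ring of the problem. Let `ρ : Gal(ℚbar/ℚ) → GL_2(A)` be continuous, residually unipotent, unramified outside `S` and
tamely ramified at `S`, in the words of the frozen statement `S17785` of the problem. We assume that for every minimal prime ideal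
`P` of `A` which does not contain `p` the group `GL_2(A / P)` has no elements of order `p`, or the inertia groups at the primes in
`T` act unipotently modulo `P`. This is no condition if `p` is nilpotent in `A`, for example in equal characteristic:
`A = 𝔽_q[[x_1, …, x_m]] / I` with any ideal `I`.

* `ρ` has finite image.
* Modulo the nilradical of `A` the image of `ρ` is commutative and killed by `p`, and it is trivial if no minimal prime ideal of `A`
  contains `p`. So if `A` is reduced, `ρ` factors through the composite of the cyclic fields of degree `p` and prime conductor.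
* Let `c ≥ 0`. There is one finite Galois extension of `ℚ`, which depends on `S` and `c` only, such that `ρ` factors through its
  Galois group for all `A` whose nilradical `N` satisfies `N ^ c = 0`: whatever the dimension, the singularities or the
  residue field of `A`.
* If `p` is not a zero divisor in `A` (which need not be reduced), and the inertia groups at `T` act unipotently, then `ρ` is trivial.

The bound for `p` depends on `k` and `δ` only. If `k ≥ 4` the pro-`p` group in question is infinite (Golod-Shafarevich).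

The library has the finiteness for regular local rings with residue field `𝔽_p` (`MostTuples` of this problem), for discrete
valuation rings of characteristic zero (`MostTuplesRankTwo`), and for three primes the finiteness modulo the nilradical
(`NoetherianMostTriples`).

Proof. Modulo a minimal prime ideal `P` the representation has finite image by the criterion of the library
(`NoetherianCoefficients`) and the polynomial condition on the linking numbers of `MostTuplesRankTwo`, which is valid over all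
fields. If `p ∈ P` the image is a finite `p`-group in `GL_2` of a domain of characteristic `p`, hence elementary abelian, and if
`p ∉ P` it is trivial. So `ρ` maps commutators to `1` modulo the nilradical `N`. Let `U` be an open normal subgroup of the tame Galois
group whose image is in `1 + M_2(N ^ i)`. The commutators of `U` are mapped to `1 + M_2(N ^ 2 i)`, and by class field theory (`t1`,
`t2`, `abq` of helper516) the abelian tame extensions of the number field belonging to `U` with ramification above `S` are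
contained in one finite extension. It depends on `U` only, so starting with the whole group we find a sequence of open subgroups
which does not depend on `A` and `ρ` (for this we show that composites of tame Galois extensions are tame).
-/

set_option autoImplicit false

open NumberField Matrix IsLocalRing

namespace Pool.Agent.Results.MP_924d78_nt.AllCoefficientRings

open Pool.Agent.Results.MP_f68ac8_nt.MostTuplesRankTwo (Most)

section
variable {A : Type} [CommRing A]

/-- `ρ` is unramified outside `S` and tamely ramified at `S`, in the words of the frozen statement `S17785`: all number fields `F`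
in the fixed field of the kernel of `ρ` are. -/
def TameRam (S : Set (Ideal (𝓞 ℚ))) (ρ : Gal(AlgebraicClosure ℚ/ℚ) →* GL (Fin 2) A) : Prop :=
  ∀ (F : Type) [Field F] [NumberField F] [Algebra ℚ F] (ι : F →ₐ[ℚ] AlgebraicClosure ℚ),
    ι.fieldRange ≤ IntermediateField.fixedField ρ.ker →
    ∀ (P : Ideal (𝓞 F)), P.IsMaximal →
    ∀ (q : Ideal (𝓞 ℚ)), q = P.comap (algebraMap (𝓞 ℚ) (𝓞 F)) →
    ∀ e : ℕ, q.map (algebraMap (𝓞 ℚ) (𝓞 F)) ≤ P ^ e →
      ¬ (q.map (algebraMap (𝓞 ℚ) (𝓞 F)) ≤ P ^ (e + 1)) →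
      (q ∉ S → e = 1) ∧ (q ∈ S → ¬ (ringChar (𝓞 ℚ ⧸ q) ∣ e))

/-- The inertia groups at the primes in `T` act unipotently modulo `P`: `(ρ(τ) - 1) ^ 2` is zero modulo `P` for their elements. -/
def UnipotentMod (T : Set ℕ) (P : Ideal A) (ρ : Gal(AlgebraicClosure ℚ/ℚ) →* GL (Fin 2) A) : Prop :=
  ∀ q ∈ T, ∀ Q : Ideal (𝓞 (AlgebraicClosure ℚ)), Q.IsMaximal → (q : 𝓞 (AlgebraicClosure ℚ)) ∈ Q →
    ∀ τ : Gal(AlgebraicClosure ℚ/ℚ), (∀ x : 𝓞 (AlgebraicClosure ℚ), τ • x - x ∈ Q) →
      ∀ i j : Fin 2, (((ρ τ : Matrix (Fin 2) (Fin 2) A) - 1) ^ (2 : ℕ)) i j ∈ P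

/-- `GL_2(B)` has no elements of order `p`. -/
def NoTorsion (p : ℕ) (B : Type) [CommRing B] : Prop := ∀ M : Matrix (Fin 2) (Fin 2) B, M ^ p = 1 → M = 1

/-- `A` is a Noetherian local ring with finite residue field of characteristic `p`, with the adic topology, and
`ρ : Gal(ℚbar/ℚ) → GL_2(A)` is continuous, unramified outside `S`, tamely ramified at `S` and residually unipotent (for every `g`
some power of `ρ(g) - 1` has all entries in the maximal ideal). -/
structure TameRep (p : ℕ) (S : Set (Ideal (𝓞 ℚ))) [IsLocalRing A] [TopologicalSpace A]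
    (ρ : Gal(AlgebraicClosure ℚ/ℚ) →* GL (Fin 2) A) : Prop where
  noeth : IsNoetherianRing A
  adic : IsAdic (maximalIdeal A)
  fin : Finite (ResidueField A)
  char : (p : A) ∈ maximalIdeal A
  cont : Continuous ρ
  tame : TameRam S ρ
  unip : ∀ g, ∃ M : ℕ, ∀ i j, (((ρ g : Matrix (Fin 2) (Fin 2) A) - 1) ^ M) i j ∈ maximalIdeal A

/-- For every minimal prime ideal `P` of `A` which does not contain `p`, `GL_2(A / P)` has no elements of order `p` or the inertia
groups at `T` act unipotently modulo `P`. -/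
def Cond (p : ℕ) (T : Set ℕ) (ρ : Gal(AlgebraicClosure ℚ/ℚ) →* GL (Fin 2) A) : Prop :=
  ∀ P ∈ minimalPrimes A, (p : A) ∉ P → NoTorsion p (A ⧸ P) ∨ UnipotentMod T P ρ

/-- `x` is `1` modulo the nilradical of `A`. -/
def OneModNil (x : GL (Fin 2) A) : Prop := ∀ i j, ((x : Matrix (Fin 2) (Fin 2) A) - 1) i j ∈ nilradical A

end

/-- Let `S` be any finite set of primes of `ℚ` whose members congruent to `1` modulo `p` are in `T`. For all `A` and `ρ` as in
`TameRep p S ρ`: if `Cond p T ρ` then `ρ` has finite image, commutators and `p`-th powers are mapped to `1` modulo the nilradical, and so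
are all elements if no minimal prime ideal contains `p`; if `p` is not a zero divisor and the inertia groups at `T` act unipotently,
`ρ` is trivial. For every `c` there is an open normal subgroup `U` of `Gal(ℚbar/ℚ)` contained in the kernel of all `ρ` such that
`Cond p T ρ` and the `c`-th power of the nilradical of `A` is zero. -/
def RankTwo (p : ℕ) (T : Set ℕ) : Prop :=
  ∀ S : Set (Ideal (𝓞 ℚ)), S.Finite →
    (∀ q ∈ S, q.IsMaximal → ∀ l : ℕ, l.Prime → (l : 𝓞 ℚ) ∈ q → p ∣ l - 1 → l ∈ T) →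
    (∀ (A : Type) [CommRing A] [IsLocalRing A] [TopologicalSpace A] (ρ : Gal(AlgebraicClosure ℚ/ℚ) →* GL (Fin 2) A),
      TameRep p S ρ →
        (Cond p T ρ → (Set.range ρ).Finite ∧ (∀ g h, OneModNil (ρ (g * h * g⁻¹ * h⁻¹))) ∧ (∀ g, OneModNil (ρ g ^ p)) ∧
          ((∀ P ∈ minimalPrimes A, (p : A) ∉ P) → ∀ g, OneModNil (ρ g))) ∧
        ((∀ a : A, (p : A) * a = 0 → a = 0) → UnipotentMod T ⊥ ρ → ∀ g, ρ g = 1)) ∧
    ∀ c : ℕ, ∃ U : Subgroup Gal(AlgebraicClosure ℚ/ℚ), U.Normal ∧ IsOpen (U : Set Gal(AlgebraicClosure ℚ/ℚ)) ∧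
      ∀ (A : Type) [CommRing A] [IsLocalRing A] [TopologicalSpace A] (ρ : Gal(AlgebraicClosure ℚ/ℚ) →* GL (Fin 2) A),
        TameRep p S ρ → Cond p T ρ → nilradical A ^ c = ⊥ → U ≤ ρ.ker

section
open Pool.Agent.H518.NC Pool.Agent.H516.TF
open Pool.Agent.K1H81.GT (V R0 ev full Bad)
open Pool.Agent.Q202.RT Pool.Agent.Q202.QT
open Pool.Agent.TH831.NA (cong mem_cong)

theorem finS (p : ℕ) {S : Set (Ideal (𝓞 ℚ))} (hS : S.Finite) :
    {l : ℕ | l.Prime ∧ l ≠ p ∧ ∃ q ∈ S, q.IsMaximal ∧ (l : 𝓞 ℚ) ∈ q}.Finite := by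
  refine (hS.biUnion (t := fun q => {l : ℕ | l.Prime ∧ q.IsMaximal ∧ (l : 𝓞 ℚ) ∈ q}) ?_).subset ?_
  · intro q _
    refine Set.Subsingleton.finite ?_
    rintro a ⟨ha, hqm, ha'⟩ b ⟨hb, -, hb'⟩
    by_contra hab
    obtain ⟨u, v, huv⟩ := Nat.isCoprime_iff_coprime.2 ((Nat.coprime_primes ha hb).2 hab)
    refine hqm.ne_top ((Ideal.eq_top_iff_one _).2 ?_)
    have h5 : (1 : 𝓞 ℚ) = (u : 𝓞 ℚ) * (a : ℕ) + (v : 𝓞 ℚ) * (b : ℕ) := by
      have := congrArg (fun z : ℤ => (z : 𝓞 ℚ)) huv
      push_cast at this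
      exact this.symm
    rw [h5]
    exact q.add_mem (q.mul_mem_left _ ha') (q.mul_mem_left _ hb')
  · rintro l ⟨h1, -, q, hq, h2, h3⟩
    exact Set.mem_biUnion hq ⟨h1, h2, h3⟩

/-- the open subgroups -/
theorem exists_U {S : Set (Ideal (𝓞 ℚ))} (hS : S.Finite) (c : ℕ) :
    ∃ U : Subgroup Gal(AlgebraicClosure ℚ/ℚ), U.Normal ∧ IsOpen (U : Set Gal(AlgebraicClosure ℚ/ℚ)) ∧
      ∀ (A : Type) [CommRing A] [IsLocalRing A] [IsNoetherianRing A] [TopologicalSpace A], IsAdic (maximalIdeal A) →
      ∀ (ρ : Gal(AlgebraicClosure ℚ/ℚ) →* GL (Fin 2) A), Continuous ρ → TameRam S ρ →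
        (∀ g h, ρ (g * h * g⁻¹ * h⁻¹) ∈ cong 2 (nilradical A)) → nilradical A ^ c = ⊥ → U ≤ ρ.ker := by
  obtain ⟨U, hUn, hUo, hU⟩ := chain (G := GK ℚ) (𝒯 := TC S) TC_mono (fun _ _ a b c d e f => TC_inf a b c d e f) (t1 hS) (t2 hS) c
  refine ⟨U, hUn, hUo, ?_⟩
  intro A _ _ _ _ hA ρ hρ hT hcomm hc g hg
  have h1 := hU A hA 2 ρ hρ hT (nilradical A) hcomm hg
  have h2 : ρ g ∈ cong 2 (nilradical A ^ 2 ^ c) := h1
  have h3 : nilradical A ^ 2 ^ c = ⊥ := by
    rw [← Nat.sub_add_cancel (Nat.lt_two_pow_self (n := c)).le, pow_add, hc, Submodule.mul_bot]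
  rw [h3, mem_cong] at h2
  show ρ g = 1
  apply Units.ext
  rw [← sub_eq_zero]
  ext i j
  exact h2 i j

theorem rankTwo_of {p : ℕ} [hpF : Fact p.Prime] {d : ℕ} {F : R0 d}
    (hF : ∀ (K : Type) [Field K] (v : V d → K), ev v F ≠ 0 →
      (∀ i, v (Sum.inr i) ≠ 0) ∧ ∀ a b T, ¬ Bad v 0 a b T ∧ ¬ Bad v 1 a b T)
    {χ : ∀ j : ℕ, (ZMod j)ˣ →* Multiplicative (ZMod p)} (hχ : Kr χ) {l : ℕ → ℕ} (hne : ev (full χ l : V d → ZMod p) F ≠ 0)
    (hl : ∀ i < d, (l i).Prime) (hpl : ∀ i < d, p ∣ l i - 1) (hli : ∀ i < d, ∀ j < d, l i = l j → i = j)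
    (hp2 : p ≠ 2) : RankTwo p (l '' {i | i < d}) := by
  classical
  have hp : p.Prime := hpF.out
  intro S hS hST
  set S' : Finset ℕ := (finS p hS).toFinset with hS'
  have hm : ∀ l, l ∈ S' ↔ l.Prime ∧ l ≠ p ∧ ∃ q ∈ S, q.IsMaximal ∧ (l : 𝓞 ℚ) ∈ q := fun l => by
    rw [hS', Set.Finite.mem_toFinset]
    rfl
  have hT : ∀ q ∈ S', p ∣ q - 1 → ∃ i < d, q = l i := by
    intro q hq hpq
    obtain ⟨h1, -, Q, hQ, h2, h3⟩ := (hm q).1 hq
    obtain ⟨i, hi, h4⟩ := hST Q hQ h2 q h1 h3 hpq
    exact ⟨i, hi, h4.symm⟩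
  have hT' : ∀ q ∈ Pool.Agent.Results.MP_924d78_nt.NoetherianCoefficients.Tame p S', q ∈ l '' {i | i < d} := by
    intro q hq
    obtain ⟨i, hi, h4⟩ := hT q (Finset.mem_filter.1 hq).1 (Finset.mem_filter.1 hq).2
    exact ⟨i, hi, h4.symm⟩
  -- the case of one representation
  have main : ∀ (A : Type) [CommRing A] [IsLocalRing A] [TopologicalSpace A] (ρ : Gal(AlgebraicClosure ℚ/ℚ) →* GL (Fin 2) A),
      TameRep p S ρ → (Cond p (l '' {i | i < d}) ρ →
        (∀ g h, ρ (g * h * g⁻¹ * h⁻¹) ∈ cong 2 (nilradical A)) ∧ (∀ g, ρ g ^ p ∈ cong 2 (nilradical A)) ∧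
        ((∀ P ∈ minimalPrimes A, (p : A) ∉ P) → ∀ g, ρ g ∈ cong 2 (nilradical A))) ∧
        ((∀ a : A, (p : A) * a = 0 → a = 0) → UnipotentMod (l '' {i | i < d}) ⊥ ρ → ∀ g, ρ g = 1) := by
    rintro A _ _ _ ρ ⟨hN, hA, hfin, hpA, hρ, htame, hres⟩
    have hchar : CharP (ResidueField A) p := by
      rw [CharP.charP_iff_prime_eq_zero hp, ← map_natCast (residue A), residue_eq_zero_iff]
      exact hpA
    have hTC : TC S (ρ : GK ℚ →* GL (Fin 2) A).ker := htame
    have hur : Pool.Agent.Results.MP_924d78_nt.NoetherianCoefficients.UnramifiedOutside S' ρ := by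
      intro P hP hPS τ hτ
      refine eq_one_of_redj fun j _ => ?_
      have hV := isOpen_ker_redj hA (G := GK ℚ) (ρ := ρ) hρ j
      have hVn : (((redj A 2 j).comp (ρ : GK ℚ →* GL (Fin 2) A)).ker).Normal := inferInstance
      refine inertia_mem (K := ℚ) (S := S) (V := ((redj A 2 j).comp (ρ : GK ℚ →* GL (Fin 2) A)).ker) hVn hV ?_ hp
        (fun g => ?_) hP (fun hq => ?_) hτ
      · refine TC_mono _ _ (fun g hg => ?_) hTC
        have h1 : ρ g = 1 := hg
        show redj A 2 j (ρ g) = 1
        rw [h1, map_one]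
      · obtain ⟨M, hM⟩ := hres g
        obtain ⟨k, hk⟩ := pow_of_unip hp hM j
        refine ⟨k, ?_⟩
        exact (congrArg (redj A 2 j) (map_pow ρ g (p ^ k))).trans hk
      · obtain ⟨q, hq1, hqP⟩ := Pool.Agent.W569.FM.exists_char P hP
        by_cases hqp : q = p
        · rw [← hqp]
          exact hqP
        · exfalso
          refine hPS q ((hm q).2 ⟨hq1, hqp, _, hq, Ideal.IsMaximal.under (𝓞 ℚ) P, ?_⟩) hqP
          rw [Ideal.under_def, Ideal.mem_comap, map_natCast]
          exact hqP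
    have key := noeth_case hF hχ hne hl hpl hli hp2 (S := S') (fun q hq => ⟨((hm q).1 hq).1, ((hm q).1 hq).2.1⟩) hT
      hA hfin hpA hρ hur hres
    refine ⟨fun hcond => key.1 fun P hP hpP => ?_, fun hreg hU => key.2 hreg ?_⟩
    · rcases hcond P hP hpP with h | h
      · exact Or.inl h
      · exact Or.inr fun q hq Q hQ hqQ τ hτ => h q (hT' q hq) Q hQ hqQ τ hτ
    · intro q hq Q hQ hqQ τ hτ
      ext i j
      exact hU q (hT' q hq) Q hQ hqQ τ hτ i j
  constructor
  · intro A _ _ _ ρ hρ
    obtain ⟨h1, h2⟩ := main A ρ hρ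
    have hN := hρ.noeth
    refine ⟨fun hcond => ?_, h2⟩
    obtain ⟨h3, h4, h5⟩ := h1 hcond
    refine ⟨?_, fun g h => mem_cong.1 (h3 g h), fun g => mem_cong.1 (h4 g), fun h g => mem_cong.1 (h5 h g)⟩
    obtain ⟨c, hc⟩ := IsNoetherianRing.isNilpotent_nilradical A
    obtain ⟨U, hUn, hUo, hU⟩ := exists_U hS c
    have h6 := hU A hρ.adic ρ hρ.cont hρ.tame h3 hc
    have h7 : IsOpen (ρ.ker : Set Gal(AlgebraicClosure ℚ/ℚ)) := Subgroup.isOpen_mono h6 hUo
    have hcs : CompactSpace Gal(AlgebraicClosure ℚ/ℚ) := (inferInstance : CompactSpace (GK ℚ))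
    have hfin : Finite (Gal(AlgebraicClosure ℚ/ℚ) ⧸ ρ.ker) := Subgroup.quotient_finite_of_isOpen _ h7
    have h10 : Finite ρ.range := Finite.of_equiv _ (QuotientGroup.quotientKerEquivRange ρ).toEquiv
    have h11 : (ρ.range : Set (GL (Fin 2) A)) = Set.range ρ := MonoidHom.coe_range ρ
    rw [← h11]
    exact Set.toFinite _
  · intro c
    obtain ⟨U, hUn, hUo, hU⟩ := exists_U hS c
    refine ⟨U, hUn, hUo, ?_⟩
    intro A _ _ _ ρ hρ hcond hc
    have hN := hρ.noeth
    exact hU A hρ.adic ρ hρ.cont hρ.tame ((main A ρ hρ).1 hcond).1 hc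

end

/-- **Tame representations of rank two over Noetherian local rings, most tuples of primes.** -/
theorem result (k : ℕ) (δ : ℝ) (hδ : 0 < δ) : ∃ p₀ : ℕ, ∀ p : ℕ, p₀ ≤ p → p.Prime →
    Most p δ (fun T => (∀ q ∈ T, ¬ p ^ 2 ∣ q - 1) ∧ RankTwo p T) k ∅ := by
  obtain ⟨F, hF0, hF⟩ := Pool.Agent.K1H81.GT.exists_F k
  refine Pool.Agent.H518.FM4.most_main k δ hδ F hF0 _ ?_
  intro p _ χ hp3 hχ l hne hl hpl hli
  exact ⟨Pool.Agent.H518.FM4.level_of_F (F := F) (fun K _ v hv => (hF K v hv).1) hne,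
    rankTwo_of hF hχ hne hl hpl hli (by omega)⟩

end Pool.Agent.Results.MP_924d78_nt.AllCoefficientRings
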