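import Pool.Agent.H438.TD.Trans
import Pool.Agent.H438.TD.Rep
import Pool.Agent.H438.TD.Glue
import Pool.Graph.R_pool_sql_team_seeded_63374d34.Results.MP_f68ac8_nt.ThreeTamePrimes

/-!
# Descent of residually unipotent representations in extensions of degree prime to `p`

Let `K'` be a finite extension, Galois or not, of degree prime to `p` of an arbitrary field `K`
(for example a number field), and let `Ω` be a Galois extension of `K` which contains `K'`, for
example the separable closure. `G_K` and `G_K'` are the groups of the automorphisms of `Ω` over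
`K` and `K'`. Places are valuation rings of `Ω`; `P` is a set of places stable under `G_K`.

(1) If all characters of order `p` of `G_K'` which are unramified at the places in `P` are
restrictions of characters of `G_K`, then ALL continuous homomorphisms from `G_K'` to pro-`p`
groups which are unramified at the places in `P` extend to `G_K`. The extension is unique, it has
the same image, and it is unramified at the places in `P`. In particular all continuous residually
unipotent representations `ρ' : G_K' → GL_n(A)` which are unramified at the places in `P`, for all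
`n` and all Noetherian local rings `A` of residue characteristic `p`, are restrictions of unique
such representations of `G_K`. So the restriction from `K` to `K'` gives a bijection between the
residually unipotent representations of `G_K` and of `G_K'` which are unramified at `P`.

(2) Let `S` be a stable set of tame places: `p` is a unit there and the decomposition groups fix
the roots of unity of order `p`. Suppose that above each place of `K` in `S` there is only one
place of `K'`. If the characters of order `p` of `G_K'` which are unramified at `P` come from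
`G_K`, then the same is true for the characters unramified at `P \ S`, so that (1) applies to
`P \ S`. For number fields, if `P` is the set of all places, the hypothesis is satisfied if `p`
does not divide the class number of `K'`. So if moreover there is only one place of `K'` above
each place in the finite set `S` of places of `K` prime to `p` (of norm `1` modulo `p`), then the
residually unipotent `p`-adic representations of `G_K'` unramified outside `S` are those of
`G_K`, and the conjecture for them over `K'`, which says that they have finite image, follows from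
the conjecture for `K`.

(3) `K = ℚ`: let `a`, `b`, `c` be primes as in the library's theorem `ThreeTamePrimes` (there
the finiteness of the image is proved for the residually unipotent representations of `G_ℚ` unramified
outside `a`, `b`, `c`). There is ONE open normal subgroup `N` of `G_ℚ` of index at most
`p ^ (24 M + 12)` such that for ALL number fields `K'` of degree prime to `p` with one place above
`a`, one above `b` and one above `c`, and without everywhere unramified characters of order `p`,
all continuous residually unipotent representations of `G_K'` of any dimension, over any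
Noetherian local ring of residue characteristic `p`, which are unramified outside `a`, `b`, `c` are
trivial on `N ∩ G_K'`; so they all factor through one finite group.

(4) The hypothesis on unramified characters in (3) is satisfied if the discriminant of `K'` is
small, e.g. for `ℚ(i)` and `p = 3`, and for the cubic field of discriminant `-23` and `p = 5`
(where one may take `(a, b, c) = (7, 19, 43)` and `(31, 41, 71)`).

Proof. (1) Let `E` be a finite `p`-group, `Z` a central subgroup of order `p` and `f : G_K' → E`.
By induction `f` modulo `Z` extends to `F₁ : G_K → E / Z`. The pullback of `E → E / Z` to `G_K` is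
an extension of `G_K` by `Z` which splits over `G_K'`, so by the transfer to the fibre product it
splits over `G_K`, because the index is prime to `p`; one gets `F : G_K → E` with `F = f χ` on
`G_K'` for a character `χ` to `Z`, and corrects `F` by an extension of `χ`. That `χ` is unramified
is arranged with the transfer again: `F` can be changed such that it is trivial on the inertia
groups in `P`. (2) The transfer of a character `χ` of `G_K'` is equal to `[K' : K] χ` on the
inertia groups at the places of `S`, since these are cyclic with trivial action of the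
decomposition group modulo `p`-th powers (by Kummer theory), and there is one double coset.
-/

set_option autoImplicit false

open NumberField IsLocalRing Module

namespace Pool.Agent.Results.MP_924d78_nt.DescentOfTameRepresentations

/-- The group `G_K` of the automorphisms of `Ω` over `K`. -/
def GalGroup (K Ω : Type) [Field K] [Field Ω] [Algebra K Ω] : Type := Ω ≃ₐ[K] Ω

section
variable {K Ω : Type} [Field K] [Field Ω] [Algebra K Ω]

instance grp : Group (GalGroup K Ω) := inferInstanceAs (Group (Ω ≃ₐ[K] Ω))

/-- the Krull topology -/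
instance krull : TopologicalSpace (GalGroup K Ω) := inferInstanceAs (TopologicalSpace (Ω ≃ₐ[K] Ω))

instance krullGroup : IsTopologicalGroup (GalGroup K Ω) :=
  inferInstanceAs (IsTopologicalGroup (Ω ≃ₐ[K] Ω))

/-- the automorphism as a homomorphism of fields -/
def GalGroup.hom (σ : GalGroup K Ω) : Ω →+* Ω := ((show Ω ≃ₐ[K] Ω from σ) : Ω →+* Ω)

/-- The group `G_K'` of the automorphisms of `Ω` over the intermediate field `K'`. -/
def GalOver (K' : IntermediateField K Ω) : Type := K'.fixingSubgroup

variable {K' : IntermediateField K Ω}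

instance grpOver : Group (GalOver K') := inferInstanceAs (Group K'.fixingSubgroup)

instance krullOver : TopologicalSpace (GalOver K') :=
  inferInstanceAs (TopologicalSpace K'.fixingSubgroup)

/-- the inclusion of `G_K'` in `G_K` -/
def incl (K' : IntermediateField K Ω) : GalOver K' →* GalGroup K Ω := K'.fixingSubgroup.subtype

/-- `σ` is in the inertia group of the valuation ring `O` of `Ω`. -/
def Inertia (O : ValuationSubring Ω) (σ : GalGroup K Ω) : Prop :=
  (∀ x, x ∈ O ↔ σ.hom x ∈ O) ∧ ∀ x ∈ O, O.valuation (σ.hom x - x) < 1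

/-- The set `P` of valuation rings of `Ω` is stable under the Galois group of `Ω` over `K`. -/
def Stable (K : Type) {Ω : Type} [Field K] [Field Ω] [Algebra K Ω]
    (P : Set (ValuationSubring Ω)) : Prop :=
  ∀ O ∈ P, ∀ g : GalGroup K Ω, O.comap g.hom ∈ P

/-- The homomorphism `f`, defined on the group `G_K'`, is trivial on its inertia groups at the
valuation rings in `P`. -/
def Unramified (P : Set (ValuationSubring Ω)) {E : Type} [Group E] (f : GalOver K' →* E) : Prop :=
  ∀ O ∈ P, ∀ σ : GalOver K', Inertia O (incl K' σ) → f σ = 1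

/-- The kernel is open: continuity of homomorphisms to discrete groups. -/
def OpenKer {G M : Type} [Group G] [TopologicalSpace G] [Group M] (f : G →* M) : Prop :=
  IsOpen (f.ker : Set G)

/-- The continuous characters of order `p` (or `1`) of `G_K'` which are unramified at the places
in `P` are restrictions of continuous characters of `G_K`. -/
def CharactersExtend (p : ℕ) (K' : IntermediateField K Ω) (P : Set (ValuationSubring Ω)) : Prop :=
  ∀ χ : GalOver K' →* Multiplicative (ZMod p), OpenKer χ → Unramified P χ →
    ∃ ψ : GalGroup K Ω →* Multiplicative (ZMod p), OpenKer ψ ∧ ψ.comp (incl K') = χ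

/-- The topological group `E` is a pro-`p` group. -/
structure IsProP (p : ℕ) (E : Type) [Group E] [TopologicalSpace E] : Prop where
  compact : CompactSpace E
  t2 : T2Space E
  basis : ∀ V ∈ nhds (1 : E), ∃ U : Subgroup E, U.Normal ∧ IsOpen (U : Set E) ∧ (U : Set E) ⊆ V
  quotient : ∀ U : Subgroup E, U.Normal → IsOpen (U : Set E) → ∀ x : E, ∃ k : ℕ, x ^ p ^ k ∈ U

/-- `F` is a continuous extension of `f` to `G_K` with the same image, unramified at `P`. -/
structure IsDescent (P : Set (ValuationSubring Ω)) {E : Type} [Group E] [TopologicalSpace E]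
    (f : GalOver K' →* E) (F : GalGroup K Ω →* E) : Prop where
  continuous : Continuous F
  eq_on : F.comp (incl K') = f
  unramified : ∀ O ∈ P, ∀ σ : GalGroup K Ω, Inertia O σ → F σ = 1
  range_eq : F.range = f.range

/-- `S` is a stable set of places at which `p` is a unit and at which the decomposition groups in
`G_K` fix the roots of unity of order `p`, and above each place of `K` in `S` there is only one
place of `K'`: two valuation rings in `S` with the same trace on `K` have the same trace on
`K'`. -/
structure TameSet (p : ℕ) (K' : IntermediateField K Ω) (S : Set (ValuationSubring Ω)) : Prop where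
  stable : Stable K S
  tame : ∀ O ∈ S, O.valuation (p : Ω) = 1
  exists_root : S.Nonempty → ∃ ζ : Ω, IsPrimitiveRoot ζ p
  roots : ∀ O ∈ S, ∀ σ : GalGroup K Ω, (∀ x, x ∈ O ↔ σ.hom x ∈ O) →
    ∀ ζ : Ω, ζ ^ p = 1 → σ.hom ζ = ζ
  one_place : ∀ O ∈ S, ∀ O' ∈ S, (∀ y : K, algebraMap K Ω y ∈ O ↔ algebraMap K Ω y ∈ O') →
    ∀ y ∈ K', y ∈ O ↔ y ∈ O'

/-- All continuous homomorphisms from `G_K'` to pro-`p` groups which are unramified at the places
in `P` extend to `G_K`; the extension is unique, it has the same image and it is unramified at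
`P`. -/
def ProPDescend (p : ℕ) (K' : IntermediateField K Ω) (P : Set (ValuationSubring Ω)) : Prop :=
  ∀ (E : Type) [Group E] [TopologicalSpace E] [IsTopologicalGroup E], IsProP p E →
    ∀ f : GalOver K' →* E, Continuous f → Unramified P f →
      ∃ F : GalGroup K Ω →* E, IsDescent P f F ∧
        ∀ F' : GalGroup K Ω →* E, F'.comp (incl K') = f → F' = F

/-- invertible matrices -/
def GLn (n : ℕ) (A : Type) [CommRing A] : Type := Matrix.GeneralLinearGroup (Fin n) A

instance grpGL (n : ℕ) (A : Type) [CommRing A] : Group (GLn n A) :=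
  inferInstanceAs (Group (Matrix.GeneralLinearGroup (Fin n) A))

instance topGL (n : ℕ) (A : Type) [CommRing A] [TopologicalSpace A] :
    TopologicalSpace (GLn n A) :=
  inferInstanceAs (TopologicalSpace (Matrix.GeneralLinearGroup (Fin n) A))

/-- the matrix -/
def GLn.mat {n : ℕ} {A : Type} [CommRing A] (g : GLn n A) : Matrix (Fin n) (Fin n) A :=
  (show Matrix.GeneralLinearGroup (Fin n) A from g).val

/-- The representation is continuous, and the reductions of all `ρ g - 1` modulo the maximal
ideal are nilpotent. -/
structure IsUnipotentRep {G : Type} [Group G] [TopologicalSpace G] {n : ℕ} {A : Type} [CommRing A]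
    [IsLocalRing A] [TopologicalSpace A] (ρ : G →* GLn n A) : Prop where
  continuous : Continuous ρ
  unipotent : ∀ g, ∃ M : ℕ, ∀ i j, (((ρ g).mat - 1) ^ M) i j ∈ maximalIdeal A

/-- The topological ring `A` is a Noetherian local ring of residue characteristic `p` with the
adic topology. -/
structure IsCoeff (p : ℕ) (A : Type) [CommRing A] [IsLocalRing A] [TopologicalSpace A] :
    Prop where
  noetherian : IsNoetherianRing A
  adic : IsAdic (maximalIdeal A)
  mem : (p : A) ∈ maximalIdeal A

/-- All continuous residually unipotent representations of `G_K'` of any dimension over any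
Noetherian local ring with residue characteristic `p` which are unramified at the places in `P`
extend to `G_K`, with the same image and unramified at `P`; the extension is unique among the
continuous residually unipotent representations. -/
def RepsDescend (p : ℕ) (K' : IntermediateField K Ω) (P : Set (ValuationSubring Ω)) : Prop :=
  ∀ (n : ℕ) (A : Type) [CommRing A] [IsLocalRing A] [TopologicalSpace A], IsCoeff p A →
    ∀ ρ' : GalOver K' →* GLn n A, IsUnipotentRep ρ' → Unramified P ρ' →
      ∃ ρ : GalGroup K Ω →* GLn n A, (IsUnipotentRep ρ ∧ IsDescent P ρ' ρ) ∧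
        ∀ ρ₁ : GalGroup K Ω →* GLn n A, IsUnipotentRep ρ₁ → ρ₁.comp (incl K') = ρ' → ρ₁ = ρ

/-- All continuous residually unipotent representations of `G_K'` of any dimension over any
Noetherian local ring with residue characteristic `p` which are unramified at the places in `P`
are trivial on `N ∩ G_K'`. -/
def RepsTrivialOn (p : ℕ) (K' : IntermediateField K Ω) (P : Set (ValuationSubring Ω))
    (N : Subgroup (GalGroup K Ω)) : Prop :=
  ∀ (n : ℕ) (A : Type) [CommRing A] [IsLocalRing A] [TopologicalSpace A], IsCoeff p A →
    ∀ ρ' : GalOver K' →* GLn n A, IsUnipotentRep ρ' → Unramified P ρ' →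
      ∀ g : GalOver K', incl K' g ∈ N → ρ' g = 1

/-- The extension is finite, of degree prime to `p`. -/
structure IsCoprime (p : ℕ) (K' : IntermediateField K Ω) : Prop where
  finite : FiniteDimensional K K'
  coprime : (finrank K K').Coprime p

end

/-- the field of algebraic numbers -/
def QBar : Type := AlgebraicClosure ℚ

noncomputable instance fieldQBar : Field QBar := inferInstanceAs (Field (AlgebraicClosure ℚ))

noncomputable instance algQBar : Algebra ℚ QBar := inferInstanceAs (Algebra ℚ (AlgebraicClosure ℚ))

/-- There is only one place of the number field `K'` above the prime number `l`: two valuation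
rings of the field of algebraic numbers which dominate the local ring at `l` have the same trace
on `K'`. -/
def OnePlaceAbove (K' : IntermediateField ℚ QBar) (l : ℕ) : Prop :=
  ∀ O O' : ValuationSubring QBar, O.valuation (l : QBar) < 1 → O'.valuation (l : QBar) < 1 →
    ∀ y ∈ K', y ∈ O ↔ y ∈ O'

/-- `G_K'` has no nontrivial everywhere unramified character of order `p`. -/
def NoUnramified (p : ℕ) (K' : IntermediateField ℚ QBar) : Prop :=
  ∀ χ : GalOver K' →* Multiplicative (ZMod p), OpenKer χ → Unramified Set.univ χ → χ = 1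

/-- The field is a number field of degree prime to `p` with one place above `a`, `b` and `c` and
without nontrivial everywhere unramified characters of order `p`. -/
structure IsAdmissibleField (p a b c : ℕ) (K' : IntermediateField ℚ QBar) : Prop where
  coprime : IsCoprime p K'
  one_a : OnePlaceAbove K' a
  one_b : OnePlaceAbove K' b
  one_c : OnePlaceAbove K' c
  unramified : NoUnramified p K'

/-- The inequality for the discriminant, with `n = [K' : ℚ]`: the root discriminant of `K'` is
less than Minkowski's bound in degree `p n`. -/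
def SmallDiscriminant (p : ℕ) (K' : IntermediateField ℚ QBar) : Prop :=
  ∃ _ : NumberField K', ∀ n : ℕ, finrank ℚ K' = n →
    40000 ^ (p * n) * (p * n).factorial ^ 2 * (discr K').natAbs ^ p <
      (p * n) ^ (2 * (p * n)) * 31415 ^ (p * n)

/-- the valuation rings at which `a`, `b` and `c` are units -/
def Outside (a b c : ℕ) : Set (ValuationSubring QBar) :=
  {O | O.valuation (a : QBar) = 1 ∧ O.valuation (b : QBar) = 1 ∧ O.valuation (c : QBar) = 1}

/-- The linking number `λ l j` of the distinct primes `l` and `j`: the value of the homomorphism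
`χ j : (ℤ/j)ˣ → ℤ/p` at the class of `l` (and `0` if `l` and `j` are not coprime). -/
noncomputable def linking {p : ℕ} (χ : ∀ j : ℕ, (ZMod j)ˣ →* Multiplicative (ZMod p))
    (l j : ℕ) : ZMod p :=
  open Classical in if h : Nat.Coprime l j then
    Multiplicative.toAdd (χ j (ZMod.unitOfCoprime l h)) else 0

/-- The class of `(l - 1) / p ^ m` modulo `p`. -/
def level (p m l : ℕ) : ZMod p := (((l - 1) / p ^ m : ℕ) : ZMod p)

/-- `p ^ m` is the exact power of `p` which divides `l - 1`. -/
def HasLevel (p m l : ℕ) : Prop := p ^ m ∣ l - 1 ∧ ¬ p ^ (m + 1) ∣ l - 1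

/-- The exceptional triples of primes, see the library's theorem `ThreeTamePrimes`: the exact
power of `p` which divides `a - 1`, `b - 1` and `c - 1` is the same number `p ^ m`, and with
`u l = (l - 1) / p ^ m` the numbers `u b * λ a c + u a * λ b c`, `u c * λ a b + u a * λ c b` and
`u c * λ b a + u b * λ c a` vanish modulo `p`. -/
def Exceptional {p : ℕ} (χ : ∀ j : ℕ, (ZMod j)ˣ →* Multiplicative (ZMod p)) (a b c : ℕ) : Prop :=
  ∃ m : ℕ, (HasLevel p m a ∧ HasLevel p m b ∧ HasLevel p m c) ∧
    level p m b * linking χ a c + level p m a * linking χ b c = 0 ∧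
    level p m c * linking χ a b + level p m a * linking χ c b = 0 ∧
    level p m c * linking χ b a + level p m b * linking χ c a = 0

/-- The triples of primes of the library's theorem `ThreeTamePrimes`; `p ^ (M + 1)` does not
divide `a - 1`, `b - 1` and `c - 1`. -/
structure Admissible {p : ℕ} (χ : ∀ j : ℕ, (ZMod j)ˣ →* Multiplicative (ZMod p))
    (a b c M : ℕ) : Prop where
  prime_a : a.Prime ∧ p ∣ a - 1
  prime_b : b.Prime ∧ p ∣ b - 1
  prime_c : c.Prime ∧ p ∣ c - 1
  distinct : a ≠ b ∧ a ≠ c ∧ b ≠ c
  linking_ne : linking χ a c * linking χ b a * linking χ c b ≠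
    linking χ a b * linking χ b c * linking χ c a
  not_exceptional : ¬ Exceptional χ a b c
  bound : ¬ p ^ (M + 1) ∣ a - 1 ∧ ¬ p ^ (M + 1) ∣ b - 1 ∧ ¬ p ^ (M + 1) ∣ c - 1

section glue

open Pool.Agent.H438.TD

variable {K Ω : Type} [Field K] [Field Ω] [Algebra K Ω] [IsGalois K Ω] {p : ℕ}
  {K' : IntermediateField K Ω} {P : Set (ValuationSubring Ω)}

theorem charExt_iff' [FiniteDimensional K K'] :
    CharExt K'.fixingSubgroup (openNormal K'.fixingSubgroup) (inertSet P) p ↔
      CharactersExtend p K' P := by
  rw [charExt_iff galois_basis K'.fixingSubgroup_isOpen]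
  refine forall_congr' fun χ => forall_congr' fun _ => ?_
  refine imp_congr ⟨fun h O hO σ hσ => h σ ⟨O, hO, hσ⟩, fun h σ hσ => ?_⟩ ?_
  · obtain ⟨O, hO, hσ⟩ := hσ
    exact h O hO σ hσ
  · refine exists_congr fun ψ => and_congr_right fun _ => ?_
    exact ⟨fun h => MonoidHom.ext h, fun h g => DFunLike.congr_fun h g⟩

variable (K') in
theorem index_eq : K'.fixingSubgroup.index = finrank K K' :=
  (IntermediateField.finrank_eq_fixingSubgroup_index Ω K').symm

variable (K') in
theorem finiteIndex [FiniteDimensional K K'] : K'.fixingSubgroup.FiniteIndex :=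
  ⟨by rw [index_eq]; exact Module.finrank_pos.ne'⟩

theorem glue_prop [Fact p.Prime] (hcop : IsCoprime p K')
    (hP : Stable K P) (hE : CharactersExtend p K' P) : ProPDescend p K' P := by
  have := hcop.finite
  have := finiteIndex K'
  intro E _ _ _ h f hf hu
  obtain ⟨F, ⟨h1, h2, h3, h4⟩, h5⟩ := extend_pro galois_basis K'.fixingSubgroup_isOpen
    inferInstance (stab_inert hP) (by rw [index_eq]; exact hcop.coprime) (charExt_iff'.2 hE)
    ⟨h.compact, h.t2, h.basis, h.quotient⟩ f hf (by
      rintro g ⟨O, hO, hg⟩
      exact hu O hO g hg)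
  exact ⟨F, ⟨h1, MonoidHom.ext h2, fun O hO σ hσ => h3 σ ⟨O, hO, hσ⟩, h4⟩,
    fun F' h6 => h5 F' fun g => DFunLike.congr_fun h6 g⟩

theorem glue_rep [Fact p.Prime] (hcop : IsCoprime p K')
    (hP : Stable K P) (hE : CharactersExtend p K' P) : RepsDescend p K' P := by
  have := hcop.finite
  have := finiteIndex K'
  intro n A _ _ _ hA ρ' hρ hu
  have := hA.noetherian
  obtain ⟨ρ, ⟨h1, h2, h3, h4⟩, h5⟩ : ∃ ρ : GalGroup K Ω →* GLn n A,
      (Continuous ρ ∧ ρ.comp (incl K') = ρ' ∧ (∀ σ ∈ inertSet P, ρ σ = 1) ∧
        ρ.range = ρ'.range) ∧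
      ∀ ρ₁ : GalGroup K Ω →* GLn n A, IsUnipotentRep ρ₁ → ρ₁.comp (incl K') = ρ' → ρ₁ = ρ := by
    obtain ⟨ρ, ⟨h1, h2, h3, h4⟩, h5⟩ := extend_rep galois_basis K'.fixingSubgroup_isOpen
      inferInstance (stab_inert hP) (by rw [index_eq]; exact hcop.coprime) (charExt_iff'.2 hE)
      hA.adic hA.mem ρ' hρ.continuous hρ.unipotent (by
        rintro g ⟨O, hO, hg⟩
        exact hu O hO g hg)
    exact ⟨ρ, ⟨h1, MonoidHom.ext h2, h3, h4⟩,
      fun ρ₁ a b => h5 ρ₁ a.continuous a.unipotent fun g => DFunLike.congr_fun b g⟩
  refine ⟨ρ, ⟨⟨h1, fun x => ?_⟩, h1, h2, fun O hO σ hσ => h3 σ ⟨O, hO, hσ⟩, h4⟩, h5⟩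
  have h6 : ρ x ∈ ρ'.range := by
    rw [← h4]
    exact ⟨x, rfl⟩
  obtain ⟨y, hy⟩ := h6
  rw [show GLn.mat (ρ x) = GLn.mat (ρ' y) from congrArg GLn.mat hy.symm]
  exact hρ.unipotent y

theorem glue_tame [Fact p.Prime] (hcop : IsCoprime p K')
    {S : Set (ValuationSubring Ω)} (hP : Stable K P) (hS : TameSet p K' S)
    (hE : CharactersExtend p K' P) : CharactersExtend p K' (P \ S) := by
  have := hcop.finite
  refine charExt_iff'.1 (charExt (S := S) ⟨Fact.out, inferInstance, hcop.coprime, hP, hS.stable,
    hS.tame, hS.exists_root, hS.roots, hS.one_place, fun χ h1 h2 h3 => ?_⟩)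
  exact charExt_iff'.2 hE χ h1 h2 (by
    rintro x ⟨O, hO, hx⟩ hxH
    exact h3 O hO x hxH hx)

end glue

section rational

open Pool.Agent.H438.TD
open Pool.Agent.H438.CP (Inert comap_lt lt_one_iff)

variable {p : ℕ} {χ : ∀ j : ℕ, (ZMod j)ˣ →* Multiplicative (ZMod p)} {a b c M : ℕ}
  {K' : IntermediateField ℚ QBar}

instance galQBar : IsGalois ℚ QBar := Pool.Agent.H438.TD.isGal

instance charQBar : CharZero QBar := inferInstanceAs (CharZero (AlgebraicClosure ℚ))

/-- the valuation rings above `l` -/
def Above (l : ℕ) : Set (ValuationSubring QBar) := {O | O.valuation (l : QBar) < 1}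

theorem stable_above (l : ℕ) : Stable ℚ (Above l) := by
  intro O hO g
  let g' : QBar ≃ₐ[ℚ] QBar := g
  show (O.comap (g' : QBar →+* QBar)).valuation (l : QBar) < 1
  rw [comap_lt, map_natCast]
  exact hO

theorem val_eq_of_coprime {O : ValuationSubring QBar} {l m : ℕ} (h : l.Coprime m)
    (hl : O.valuation (l : QBar) < 1) : O.valuation (m : QBar) = 1 := by
  have h1 : _root_.IsCoprime (l : ℤ) (m : ℤ) := Nat.isCoprime_iff_coprime.2 h
  have h2 := coprime_val (O := O) h1 (by rw [Int.cast_natCast]; exact hl)
  rwa [Int.cast_natCast] at h2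

theorem coprime_of_dvd {l : ℕ} (hp : p.Prime) (h : l.Prime ∧ p ∣ l - 1) : l.Coprime p := by
  rw [Nat.coprime_primes h.1 hp]
  rintro rfl
  have h1 : l ≤ l - 1 := Nat.le_of_dvd (by have := h.1.one_lt; omega) h.2
  have := h.1.one_lt
  omega

theorem tameSet (hp : p.Prime) (h : Admissible χ a b c M)
    (h1 : ∀ l : ℕ, l = a ∨ l = b ∨ l = c → OnePlaceAbove K' l) :
    TameSet p K' (Above a ∪ Above b ∪ Above c) := by
  have hl : ∀ l : ℕ, l = a ∨ l = b ∨ l = c → l.Prime ∧ p ∣ l - 1 := by
    rintro l (rfl | rfl | rfl)
    · exact h.prime_a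
    · exact h.prime_b
    · exact h.prime_c
  have hS : ∀ O ∈ Above a ∪ Above b ∪ Above c, ∃ l : ℕ, (l = a ∨ l = b ∨ l = c) ∧ O ∈ Above l := by
    rintro O ((hO | hO) | hO)
    · exact ⟨a, Or.inl rfl, hO⟩
    · exact ⟨b, Or.inr (Or.inl rfl), hO⟩
    · exact ⟨c, Or.inr (Or.inr rfl), hO⟩
  have hS' : ∀ l : ℕ, (l = a ∨ l = b ∨ l = c) → ∀ O ∈ Above l, O ∈ Above a ∪ Above b ∪ Above c := by
    rintro l (rfl | rfl | rfl) O hO
    · exact Or.inl (Or.inl hO)
    · exact Or.inl (Or.inr hO)
    · exact Or.inr hO
  have htame : ∀ O ∈ Above a ∪ Above b ∪ Above c, O.valuation (p : QBar) = 1 := by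
    intro O hO
    obtain ⟨l, hl1, hl2⟩ := hS O hO
    exact val_eq_of_coprime (coprime_of_dvd hp (hl l hl1)) hl2
  refine ⟨fun O hO g => ?_, htame, fun _ => ?_, fun O hO σ hσ ζ hζ => ?_, fun O hO O' _ hOO' => ?_⟩
  · obtain ⟨l, hl1, hl2⟩ := hS O hO
    exact hS' l hl1 _ (stable_above l O hl2 g)
  · have : NeZero (p : ℚ) := ⟨by exact_mod_cast hp.ne_zero⟩
    exact HasEnoughRootsOfUnity.exists_primitiveRoot (AlgebraicClosure ℚ) p
  · obtain ⟨l, hl1, hl2⟩ := hS O hO
    exact root_fix (σ := (show QBar ≃ₐ[ℚ] QBar from σ)) (hl l hl1).1 hp (hl l hl1).2 hl2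
      (htame O hO) hσ hζ
  · obtain ⟨l, hl1, hl2⟩ := hS O hO
    refine h1 l hl1 O O' hl2 ?_
    have h2 : O.valuation (l : QBar) < 1 := hl2
    rw [lt_one_iff] at h2 ⊢
    refine h2.imp id fun h3 h4 => h3 ?_
    have h5 := (hOO' (l : ℚ)⁻¹).2
    rw [map_inv₀, map_natCast] at h5
    exact h5 h4

theorem descent_three (hp : p.Prime) (h : Admissible χ a b c M)
    (hK : IsAdmissibleField p a b c K') :
    RepsDescend p K' (Set.univ \ (Above a ∪ Above b ∪ Above c)) := by
  have : Fact p.Prime := ⟨hp⟩
  have hS := tameSet (K' := K') hp h (by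
      rintro l (rfl | rfl | rfl)
      · exact hK.one_a
      · exact hK.one_b
      · exact hK.one_c)
  have hE : CharactersExtend p K' (Set.univ \ (Above a ∪ Above b ∪ Above c)) :=
    glue_tame hK.coprime (fun _ _ _ => trivial) hS (fun χ' h2 h3 => by
      rw [hK.unramified χ' h2 h3]
      refine ⟨1, ?_, rfl⟩
      show IsOpen (((1 : GalGroup ℚ QBar →* Multiplicative (ZMod p)).ker : Set (GalGroup ℚ QBar)))
      rw [MonoidHom.ker_one]
      exact isOpen_univ)
  exact glue_rep hK.coprime (stable_diff (P := Set.univ) (fun _ _ _ => Set.mem_univ _) hS.stable)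
    hE

theorem unr_of_outside {E : Type} [Group E] {f : GalOver K' →* E}
    (hu : Unramified (Outside a b c) f) :
    Unramified (Set.univ \ (Above a ∪ Above b ∪ Above c)) f := by
  rintro O ⟨-, hO⟩ σ hσ
  have h3 : ∀ l : ℕ, (O ∉ Above l) → O.valuation (l : QBar) = 1 := fun l h3 =>
    le_antisymm ((O.valuation_le_one_iff _).2 (natCast_mem O l)) (le_of_not_gt h3)
  exact hu O ⟨h3 a fun h4 => hO (Or.inl (Or.inl h4)), h3 b fun h4 => hO (Or.inl (Or.inr h4)),
    h3 c fun h4 => hO (Or.inr h4)⟩ σ hσ

theorem noUnramified (hp : p.Prime) (h : SmallDiscriminant p K') :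
    NoUnramified p K' := by
  obtain ⟨h0, h⟩ := h
  intro χ' h1 h2
  let L : IntermediateField ℚ (AlgebraicClosure ℚ) := K'
  have i1 : NumberField L := h0
  have i2 : FiniteDimensional ℚ L := (inferInstance : FiniteDimensional ℚ K')
  exact noUr_transfer L (Pool.Agent.R417.FK.noUr_of_discr hp rfl (h _ rfl)) χ' h1
    fun O σ hσ => h2 O trivial σ hσ

theorem library (hp2 : p ≠ 2) (hp : p.Prime) (h : Admissible χ a b c M) :
    ∃ N : Subgroup (GalGroup ℚ QBar), N.Normal ∧ IsOpen (N : Set (GalGroup ℚ QBar)) ∧
      N.index ≤ p ^ (24 * M + 12) ∧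
      ∀ (n : ℕ) (A : Type) [CommRing A] [IsLocalRing A] [TopologicalSpace A], IsCoeff p A →
        ∀ ρ : GalGroup ℚ QBar →* GLn n A, IsUnipotentRep ρ →
          MP_f68ac8_nt.ThreeTamePrimes.UnramifiedOutside p {a, b, c} ρ → ∀ g ∈ N, ρ g = 1 := by
  have : Fact p.Prime := ⟨hp⟩
  obtain ⟨N, h1, h2, h3, h4⟩ := MP_f68ac8_nt.ThreeTamePrimes.result p hp2 χ
    a b c h.prime_a h.prime_b h.prime_c h.distinct.1 h.distinct.2.1 h.distinct.2.2 h.linking_ne
    h.not_exceptional M h.bound
  refine ⟨N, h1, h2, h3, fun n A _ _ _ hA ρ hρ hu g hg => ?_⟩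
  have := hA.noetherian
  exact h4 n A hA.adic hA.mem ρ hρ.continuous hρ.unipotent hu g hg

end rational

theorem result :
    -- (1) characters of order `p` control all homomorphisms to pro-`p` groups and all
    -- residually unipotent representations
    (∀ (K Ω : Type) [Field K] [Field Ω] [Algebra K Ω] [IsGalois K Ω] (p : ℕ) [Fact p.Prime]
      (K' : IntermediateField K Ω) (P : Set (ValuationSubring Ω)), IsCoprime p K' → Stable K P →
        CharactersExtend p K' P → ProPDescend p K' P ∧ RepsDescend p K' P) ∧
    -- (2) tame places with one place above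
    (∀ (K Ω : Type) [Field K] [Field Ω] [Algebra K Ω] [IsGalois K Ω] (p : ℕ) [Fact p.Prime]
      (K' : IntermediateField K Ω) (P S : Set (ValuationSubring Ω)), IsCoprime p K' →
        Stable K P → TameSet p K' S → CharactersExtend p K' P → CharactersExtend p K' (P \ S)) ∧
    -- (3) all number fields of degree prime to `p` with one place above `a`, `b` and `c`
    (∀ (p : ℕ) [Fact p.Prime], p ≠ 2 →
      ∀ (χ : ∀ j : ℕ, (ZMod j)ˣ →* Multiplicative (ZMod p)) (a b c M : ℕ),
      Admissible χ a b c M →
      ∃ N : Subgroup (GalGroup ℚ QBar), (N.Normal ∧ IsOpen (N : Set (GalGroup ℚ QBar)) ∧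
        N.index ≤ p ^ (24 * M + 12)) ∧
        ∀ K' : IntermediateField ℚ QBar, IsAdmissibleField p a b c K' →
          RepsTrivialOn p K' (Outside a b c) N) ∧
    -- (4) fields of small discriminant
    (∀ (p : ℕ) [Fact p.Prime] (K' : IntermediateField ℚ QBar),
      SmallDiscriminant p K' → NoUnramified p K') := by
  refine ⟨?_, ?_, ?_, ?_⟩
  · intro K Ω _ _ _ _ p _ K' P hcop hP hE
    exact ⟨glue_prop hcop hP hE, glue_rep hcop hP hE⟩
  · intro K Ω _ _ _ _ p _ K' P S hcop hP hS hE
    exact glue_tame hcop hP hS hE
  · intro p _ hp2 χ a b c M h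
    have hp : p.Prime := Fact.out
    obtain ⟨N, h1, h2, h3, h4⟩ := library hp2 hp h
    refine ⟨N, ⟨h1, h2, h3⟩, ?_⟩
    intro K' hK n A _ _ _ hA ρ' hρ hu g hg
    obtain ⟨ρ, ⟨hur, hd⟩, -⟩ := descent_three hp h hK n A hA ρ' hρ (unr_of_outside hu)
    rw [← hd.eq_on]
    refine h4 n A hA ρ hur ?_ _ hg
    intro P hP l hl hlP hlT τ hτ
    obtain ⟨O, hO1, hO2⟩ := Pool.Agent.H438.TD.exists_inert hP.ne_top
    have hlO : O.valuation (l : QBar) < 1 := hO1 _ hlP
    have h5 : ∀ j : ℕ, j.Prime ∧ p ∣ j - 1 → j ∈ ({a, b, c} : Set ℕ) → O ∉ Above j := by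
      intro j hj hjT hjO
      have h6 : l ≠ j := by
        rintro rfl
        rcases hlT with h7 | h7
        · subst h7
          exact absurd rfl ((Nat.coprime_primes hl hp).1 (coprime_of_dvd hp hj))
        · exact h7.2 hjT
      have h7 := val_eq_of_coprime ((Nat.coprime_primes hl hj.1).2 h6) hlO
      have h8 : O.valuation (j : QBar) < 1 := hjO
      exact absurd h7 h8.ne
    refine hd.unramified O ⟨trivial, ?_⟩ τ (hO2 τ hτ)
    rintro ((h6 | h6) | h6)
    · exact h5 a h.prime_a (by simp) h6
    · exact h5 b h.prime_b (by simp) h6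
    · exact h5 c h.prime_c (by simp) h6
  · intro p _ K' h
    exact noUnramified Fact.out h

end Pool.Agent.Results.MP_924d78_nt.DescentOfTameRepresentations
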