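import Pool.Agent.H367.OS.OCut
import Mathlib

/-!
# Tamely ramified representations and one double sequence of number fields

A relation `r` of size `m` is one of the equations `x_i x_j = x_l`, `x_i + x_j = x_l`, `x_i = 1` with
`i, j, l < m`; the relations are numbered, the number of `r` is `ν(r)` (`relNum`). Let `G_m` be the
following polynomial with integral coefficients (`univG ℤ m`). There are variables `x_i` and `z_ij` for
`i, j < m`, a variable `c_r` for every relation `r`, and variables `y_{r,l}` for all relations `r` and
`l < (m + 1) 2 ^ ν(r)`. The equations (`eqnG`) are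

  `z_ij - x_i x_j`,  `c_r ^ 2 - c_r`,  `c_r ρ_r`,  `(1 - c_r) y_{r,l}`,

where `ρ_r` is the linear polynomial `z_ij - x_l`, `x_i + x_j - x_l` or `x_i - 1` of the relation.
`G_m` is the sum of the equations multiplied by further variables `t_e`, one for each equation. It has
degree three. Let `C_m` be the affine cubic hypersurface `G_m = 1` (`cubG R m` over the ring `R`); it is
smooth over the integers.

Let `M` be the category of motives over `ℚ` in the sense of André, a semisimple abelian category with
Tate twists `N ↦ N(a)`. For a separated scheme `X` of finite type over `ℚ` let `D.G w j X = Gr^W_w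
H^j_c(X)` be the part of weight `w` of the cohomology with compact supports, a motive over `ℚ`; for
smooth projective `Y` it is `h^j(Y)` if `j = w`, and zero otherwise. The motives `h^0(Y)` and their
direct factors are the Artin motives over `ℚ` (representations of `Gal(ℚ̄/ℚ)` over `ℚ` with finite
image).

Let `E_m` be the number of the equations, and for `N ∈ ℕ` let `e = (m + 1) N + E_m - 1`
(`esh m N`). Let `V_{m,N}` be the
motive `Gr^W_{2e} H^{2e+1}_c(C_m)(e)` (`single0 D m N`).

For a motive `N` let `cut N` be the fixed field of the kernel of the action of `Gal(ℚ̄/ℚ)` on an
ℓ-adic realization of `N` (a Galois extension of `ℚ` in `ℚ̄`; for Artin motives it is a number field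
which does not depend on `ℓ`; the field of `h^0(Spec L)` is the Galois closure of `L`; hypotheses
`CutsOut`). Let `F_{m,N}` be the field cut out by the Artin motive `V_{m,N}` (`numField`).

`FiniteImages K` is the statement of the question for the number field `K` (all finite sets `S` of
primes, all `n` and all rings `A`), in the form of the frozen statement. If it is true for an
extension of finite degree `K'` of `K`, then it is true for `K`: the image of the restriction of `ρ`
to the Galois group of `K'` is a subgroup of finite index (hypothesis `hres`).

**Theorem.** (1) For `m ≥ 1` the fields `F_{m,N}` are Galois extensions of `ℚ` of finite degree. Every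
number field is isomorphic to a subfield of `F_{m,N}` for all large `m` and some `N`.

(2) The question has a positive answer for all number fields if and only if for infinitely many `m` it
has a positive answer for the fields `F_{m,N}`, for all `N`.

(3) For every number field `K` and all large `m` there is an `N` such that a positive answer for the
single field `F_{m,N}` implies a positive answer for `K`. If there is a counterexample for `K`, then
for all large `m` there is one for `F_{m,N}`, for some `N`.

(4) `G_m` has integral coefficients and degree at most three, and `C_m` is smooth over all rings.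

The hypotheses on the motives are standard (`IsMot`): exact sequences, affine bundles, disjoint unions,
the cohomology of affine spaces, the weights of `H^j_c(X)` are between `0` and `2 dim X`, monomorphisms
split, `Gr^W_w H^j_c(X)` is a direct factor of `h^w(Y)` for some smooth projective `Y` (it is a
subquotient, by the weight spectral sequence), and every smooth projective scheme has an affine bundle
whose total space is affine (Jouanolou).

Idea of the proof. The projection of `C_m` to the affine space with the coordinates `x, z, c, y` is an
affine bundle over the complement of the zero set `W_m` of the equations. The scheme `W_m` is the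
disjoint union, over all sets `s` of relations (`c_r = 1` for `r ∈ s` and `c_r = 0` for the others), of
the products `X_s × 𝔸 ^ ((m + 1) N(s))`, where `X_s` is the affine scheme defined by the relations in
`s` and `N(s) = ∑_{r ∈ s} 2 ^ ν(r)`. The numbers `N(s)` are different, and the dimension of `X_s` is at
most `m`. So the invariant of `W_m` with the index `q + (m + 1) N(s)`, `0 ≤ q ≤ m`, is the invariant of
`X_s` with the index `q`; the other components do not contribute. Every affine scheme of finite type
over a prime field is an `X_s`, for all large `m`.

The universal system of relations is the one of helper854 (`Pool.Agent.H854.SQ`).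
-/

set_option autoImplicit false

open CategoryTheory CategoryTheory.Limits AlgebraicGeometry Pool.Agent.Y116.UV Pool.Agent.Z125.UN
  Pool.Agent.Q193.LT Pool.Agent.H854.SQ Pool.Agent.H367.OS
open NumberField

universe v u



namespace Pool.Agent.Results.MP_924d78_nt.PiecesOfOneSequence

/-- The statement of the question for the number field `K`, in the form of the frozen statement. -/
def FiniteImages (K : Type) [Field K] [NumberField K] : Prop :=
  ∀ S : Set (Ideal (𝓞 K)), S.Finite →
    ∀ (A : Type) [CommRing A] [IsLocalRing A] [IsNoetherianRing A] [TopologicalSpace A],
      IsAdic (IsLocalRing.maximalIdeal A) →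
      IsAdicComplete (IsLocalRing.maximalIdeal A) A →
      Finite (IsLocalRing.ResidueField A) →
    ∀ (n : ℕ)
      (ρ : (AlgebraicClosure K ≃ₐ[K] AlgebraicClosure K) →* Matrix.GeneralLinearGroup (Fin n) A),
      Continuous ρ →
      (∀ (F : Type) [Field F] [NumberField F] [Algebra K F]
          (ι : F →ₐ[K] AlgebraicClosure K),
          ι.fieldRange ≤ IntermediateField.fixedField ρ.ker →
          ∀ (P : Ideal (𝓞 F)), P.IsMaximal →
          ∀ (q : Ideal (𝓞 K)), q = P.comap (algebraMap (𝓞 K) (𝓞 F)) →
          ∀ e : ℕ, q.map (algebraMap (𝓞 K) (𝓞 F)) ≤ P ^ e →
            ¬ (q.map (algebraMap (𝓞 K) (𝓞 F)) ≤ P ^ (e + 1)) →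
            (q ∉ S → e = 1) ∧ (q ∈ S → ¬ (ringChar (𝓞 K ⧸ q) ∣ e))) →
      (Set.range ρ).Finite

/-- The statement for a subfield of `ℚ̄`, if it is a number field. -/
def For (L : AlgField) : Prop := ∀ _ : NumberField L, FiniteImages L

/-- **Tamely ramified representations and one double sequence of number fields.** See the
explanations above. -/
theorem result {M : Type u} [Category.{v} M] [Abelian M] {D : Pieces ℚ M} (h : IsMot D)
    {cut : M → AlgField} (hc : CutsOut D cut)
    (hres : ∀ (K K' : Type) [Field K] [NumberField K] [Field K'] [NumberField K'],
      Nonempty (K →+* K') → FiniteImages K' → FiniteImages K) :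
    ((∀ m, 1 ≤ m → ∀ N : ℕ, OfFiniteDegree (numField D cut m N) ∧
        IsNormal (numField D cut m N) ∧ NumberField (numField D cut m N)) ∧
      ∀ (K : Type) [Field K] [NumberField K], ∀ᶠ m in Filter.atTop, ∃ N : ℕ,
        Nonempty (K →+* numField D cut m N)) ∧
    ((∀ (K : Type) [Field K] [NumberField K], FiniteImages K) ↔
      ∃ᶠ m in Filter.atTop, ∀ N : ℕ, For (numField D cut m N)) ∧
    (∀ (K : Type) [Field K] [NumberField K], ∀ᶠ m in Filter.atTop, ∃ N : ℕ,
      For (numField D cut m N) → FiniteImages K) ∧
    ∀ m : ℕ, (univG ℤ m).totalDegree ≤ 3 ∧
      ∀ (R : Type) [CommRing R], MvPolynomial.map (Int.castRingHom R) (univG ℤ m) = univG R m ∧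
        Smooth (cubG R m).hom := by
  have h1 : ∀ m, 1 ≤ m → ∀ N : ℕ, NumberField (numField D cut m N) := fun m hm N =>
    numberField_of (((fields h hc).1 m hm N).1)
  have h4 : ∀ (K : Type) [Field K] [NumberField K], ∀ᶠ m in Filter.atTop, ∃ N : ℕ,
      For (numField D cut m N) → FiniteImages K := by
    intro K _ _
    filter_upwards [embeds h hc K, Filter.eventually_ge_atTop 1] with m hm hm1
    obtain ⟨N, hN⟩ := hm
    have := h1 m hm1 N
    exact ⟨N, fun g => hres K _ hN (g this)⟩
  refine ⟨⟨fun m hm N => ⟨((fields h hc).1 m hm N).1, ((fields h hc).1 m hm N).2, h1 m hm N⟩,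
    fun K _ _ => embeds h hc K⟩, ⟨fun g => ?_, fun g K _ _ => ?_⟩, h4, cubG_facts⟩
  · exact Filter.Frequently.of_forall fun m N _ => g _
  · obtain ⟨m, hm1, N, hN⟩ := (g.and_eventually (h4 K)).exists
    exact hN (hm1 N)

end Pool.Agent.Results.MP_924d78_nt.PiecesOfOneSequence
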