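import Pool.Agent.H516.TF.NT
import Pool.Agent.H516.TF.Ring
import Pool.Agent.H97.TF.Jor

/-!
# Tamely ramified representations, uniformly in the residue characteristic

Let `K` be a number field, `S` a finite set of primes of `K` and `n ≥ 0`. There are a finite Galois
extension `Ω/K` (the fixed field of the open normal subgroup `U`) and a number `p₀`, depending only on
`K`, `S` and `n`, such that for EVERY prime `p > p₀`, every complete noetherian local ring `A` with
finite residue field of characteristic `p` and every continuous `ρ : G_K → GL_n(A)` unramified outside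
`S` and tamely ramified at `S` (in the words of the frozen statement `S17785`):

* the residual image of `U = G_Ω` is the subgroup of the residual image generated by the elements of
  `p`-power order,
* the image of `U` in `GL_n(A/𝔪^j)` is perfect and generated by elements of `p`-power order for every
  `j`, so `ρ(U)` has no nontrivial finite `p`-solvable quotient,
* the residual image is `p`-solvable if and only if `ρ` is trivial on `U`, that is, factors through
  the fixed finite group `Gal(Ω/K)`, whose order is at most `p₀ < p`.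
-/

set_option autoImplicit false

namespace Pool.Agent.Results.MP_924d78_nt.UniformInP

open NumberField IsLocalRing Pool.Agent.H516.TF

/-- `A` is a complete noetherian local ring with finite residue field of characteristic `p`, with the
adic topology. -/
structure Coeff (p : ℕ) (A : Type) [CommRing A] [IsLocalRing A] [TopologicalSpace A] : Prop where
  noeth : IsNoetherianRing A
  adic : IsAdic (maximalIdeal A)
  complete : IsAdicComplete (maximalIdeal A) A
  finite : Finite (ResidueField A)
  char : CharP (ResidueField A) p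

/-- `ρ` is continuous, unramified outside `S` and tamely ramified at `S`. -/
structure TameRep {K : Type} [Field K] [NumberField K] (S : Set (Ideal (𝓞 K))) {A : Type}
    [CommRing A] [TopologicalSpace A] {n : ℕ} (ρ : GK K →* GL (Fin n) A) : Prop where
  cont : Continuous ρ
  tame : TC S ρ.ker

/-- `X` is perfect and generated by elements of `p`-power order. -/
def PPerf (p : ℕ) {G : Type} [Group G] (X : Subgroup G) : Prop := pl p X = X ∧ ⁅X, X⁆ = X

section
variable {G A : Type} [Group G] [CommRing A] [IsLocalRing A] {n : ℕ}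

/-- the residual representation -/
noncomputable def res (ρ : G →* GL (Fin n) A) : G →* GL (Fin n) (ResidueField A) :=
  (redk A n).comp ρ

/-- the representation modulo the `j`-th power of the maximal ideal -/
noncomputable def resj (ρ : G →* GL (Fin n) A) (j : ℕ) :
    G →* GL (Fin n) (A ⧸ maximalIdeal A ^ j) := (redj A n j).comp ρ

/-- The conclusion for a representation `ρ` over the local ring `A` of residue characteristic `p`:
the residual image of `U` is generated by the `p`-elements of the residual image, all the images of `U`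
modulo the powers of the maximal ideal are perfect and generated by `p`-elements, and `ρ` is trivial on
`U` if and only if the residual image is `p`-solvable. -/
structure Concl (p : ℕ) (U : Subgroup G) (ρ : G →* GL (Fin n) A) : Prop where
  residual : U.map (res ρ) = pl p (res ρ).range
  perfect : ∀ j : ℕ, PPerf p (U.map (resj ρ j))
  solvable : PSolv p (res ρ).range ↔ U ≤ ρ.ker

end

theorem result (K : Type) [Field K] [NumberField K] (S : Set (Ideal (𝓞 K))) (hS : S.Finite)
    (n : ℕ) :
    ∃ (U : Subgroup (GK K)) (p₀ : ℕ), U.Normal ∧ IsOpen (U : Set (GK K)) ∧ U.index ≤ p₀ ∧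
    ∀ p : ℕ, p.Prime → p₀ < p →
    ∀ (A : Type) [CommRing A] [IsLocalRing A] [TopologicalSpace A], Coeff p A →
    ∀ ρ : GK K →* GL (Fin n) A, TameRep S ρ → Concl p U ρ := by
  obtain ⟨J, hJ⟩ := Pool.Agent.H97.TF.jor n
  obtain ⟨Ω, p₀, hΩn, hΩo, hmain⟩ := abs_main (G := GK K) (𝒯 := TC S) TC_mono (t1 hS) (t2 hS) J
  refine ⟨Ω, max p₀ Ω.index, hΩn, hΩo, le_max_right _ _, ?_⟩
  rintro p hp hpp A _ _ _ ⟨hnoeth, hA, hcomp, hfin, hchar⟩ ρ ⟨hρ, hT⟩
  have hpf : Fact p.Prime := ⟨hp⟩
  have hp0 : p₀ < p := lt_of_le_of_lt (le_max_left _ _) hpp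
  have hTC : TC S ρ.ker := hT
  set g₁ := (redk A n).comp ρ with hg₁
  have hfinj : ∀ j, Finite (A ⧸ maximalIdeal A ^ j) := by
    intro j
    have : Finite (A ⧸ maximalIdeal A) := hfin
    exact Ideal.finite_quotient_pow (IsNoetherian.noetherian _) j
  have hJH : ∀ C : Subgroup g₁.range, ¬ p ∣ Nat.card C →
      ∃ B : Subgroup g₁.range, B ≤ C ∧ (∀ a ∈ B, ∀ b ∈ B, a * b = b * a) ∧ B.relIndex C ≤ J := by
    intro C hC
    have hcard : Nat.card (C.map g₁.range.subtype) = Nat.card C :=
      Subgroup.card_map_of_injective g₁.range.subtype_injective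
    obtain ⟨B, hB1, hB2, hB3⟩ := hJ p (ResidueField A) (C.map g₁.range.subtype)
      (by rw [hcard]; exact hC)
    refine ⟨B.comap g₁.range.subtype, ?_, ?_, ?_⟩
    · intro x hx
      obtain ⟨c, hc, hcx⟩ := hB1 hx
      rwa [← Subtype.ext hcx]
    · intro a ha b hb
      exact Subtype.ext (hB2 _ ha _ hb)
    · have h1 : (B.comap g₁.range.subtype).relIndex C =
          B.relIndex (C.map g₁.range.subtype) := Subgroup.relIndex_comap _ _ _
      rw [h1]
      exact hB3
  have key : ∀ j : ℕ, 1 ≤ j →
      Ω.map g₁.rangeRestrict = pl p (⊤ : Subgroup g₁.range) ∧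
      pl p (Ω.map ((redj A n j).comp ρ)) = Ω.map ((redj A n j).comp ρ) ∧
      ⁅Ω.map ((redj A n j).comp ρ), Ω.map ((redj A n j).comp ρ)⁆ = Ω.map ((redj A n j).comp ρ) ∧
      (PSolv p g₁.range → Ω ≤ ((redj A n j).comp ρ).ker) := by
    intro j hj
    have h := hmain p hp0 g₁.range (GL (Fin n) (A ⧸ maximalIdeal A ^ j)) g₁.rangeRestrict
      ((redj A n j).comp ρ) g₁.rangeRestrict_surjective hJH ?_ ?_ ?_ ?_
    · exact h
    · intro x hx
      have h1 := redj_eq_one.1 (show redj A n j (ρ x) = 1 from hx)
      rw [MonoidHom.ker_rangeRestrict]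
      show redk A n (ρ x) = 1
      rw [redk_eq_one]
      intro a b
      exact Ideal.pow_le_self (by omega) (h1 a b)
    · intro x hx
      refine ⟨j, pow_redj (p := p) ?_⟩
      exact congrArg Subtype.val hx
    · exact isOpen_ker_redj hA hρ j
    · refine TC_mono _ _ ?_ hTC
      intro x hx
      show redj A n j (ρ x) = 1
      rw [(show ρ x = 1 from hx), map_one]
  refine ⟨?_, ?_, ?_⟩
  · have h := (key 1 le_rfl).1
    have h2 := congrArg (fun V : Subgroup g₁.range => V.map g₁.range.subtype) h
    simp only [Subgroup.map_map] at h2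
    rw [MonoidHom.subtype_comp_rangeRestrict] at h2
    show Subgroup.map g₁ Ω = pl p g₁.range
    rw [h2]
    unfold pl
    rw [MonoidHom.map_closure]
    congr 1
    ext x
    constructor
    · rintro ⟨y, ⟨-, k, hk⟩, rfl⟩
      exact ⟨y.2, k, by rw [← map_pow, hk, map_one]⟩
    · rintro ⟨hx, k, hk⟩
      exact ⟨⟨x, hx⟩, ⟨trivial, k, Subtype.ext hk⟩, rfl⟩
  · intro j
    rcases Nat.eq_zero_or_pos j with rfl | hj
    · have hs : Subsingleton (A ⧸ maximalIdeal A ^ 0) := by
        rw [Ideal.Quotient.subsingleton_iff, pow_zero, Ideal.one_eq_top]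
      have hs2 : Subsingleton (GL (Fin n) (A ⧸ maximalIdeal A ^ 0)) :=
        ⟨fun a b => Units.ext (Subsingleton.elim _ _)⟩
      exact ⟨Subsingleton.elim _ _, Subsingleton.elim _ _⟩
    · exact ⟨(key j hj).2.1, (key j hj).2.2.1⟩
  · constructor
    · intro hps ω hω
      rw [MonoidHom.mem_ker]
      apply eq_one_of_redj
      intro j hj
      exact (key j hj).2.2.2 hps hω
    · intro hle
      have hle2 : Ω ≤ g₁.ker := by
        intro x hx
        show redk A n (ρ x) = 1
        rw [(show ρ x = 1 from hle hx), map_one]
      have hcard : Nat.card g₁.range ∣ Ω.index := by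
        rw [← Subgroup.index_ker]
        exact Subgroup.index_dvd_of_le hle2
      have hlt : Ω.index < p := lt_of_le_of_lt (le_max_right _ _) hpp
      refine ⟨1, fun i => if i = 0 then ⊥ else ⊤, rfl, rfl, ?_⟩
      intro i hi
      have hi0 : i = 0 := by omega
      subst hi0
      refine ⟨?_, ?_, Or.inr ?_⟩
      · show (⊥ : Subgroup g₁.range).Normal
        infer_instance
      · show (⊥ : Subgroup g₁.range) ≤ _
        exact bot_le
      · show ¬ p ∣ (⊥ : Subgroup g₁.range).relIndex ⊤
        rw [Subgroup.relIndex_top_right, Subgroup.index_bot]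
        intro h
        have h2 := Nat.le_of_dvd (Nat.pos_of_ne_zero (index_ne_zero hΩo)) (h.trans hcard)
        omega

end Pool.Agent.Results.MP_924d78_nt.UniformInP
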